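import Pool.Agent.W675.PegC

/-! Inscribed squares in Jordan curves without any regularity: curves touching the four sides of a
rectangle whose arcs stay away from the opposite corners. -/

namespace Pool.Agent.Results.MP_5a3ebe_gt.FourSides

/-- Let `C` be a Jordan curve in the rectangle `[0, a] × [0, b]`, parametrised by `c : ℝ → ℂ` of
period `1`, that touches the bottom, the right, the top and the left side of the rectangle at points
`S = (s, 0)`, `R = (a, r)`, `T = (t, b)`, `L = (0, l)`, in this order along `c`. Suppose that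
the points `(x, y)` of the arc `RT` satisfy `s ≤ x` or `a - s ≤ y` or `b - s ≤ y - x`, and `l ≤ y` or
`b - l ≤ x` or `a - l ≤ x - y`, and that the same holds for the other three arcs, with the whole
figure turned by multiples of 90 degrees. Then `C` contains the four vertices of a square. In a
square, `a = b`, the third alternatives are superfluous (the arc `RT` avoids the boxes
`[0, s) × [0, a - s)` and `[0, a - l) × [0, l)`), and the hypothesis holds for instance if none of the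
four arcs crosses to the other side of the diagonal that cuts off the two sides it joins. -/
theorem result (c : ℝ → ℂ) (hc : Continuous c) (hper : ∀ u, c (u + 1) = c u)
    (hinj : Set.InjOn c (Set.Ico 0 1)) (a b : ℝ)
    (hbox : ∀ u, 0 ≤ (c u).re ∧ (c u).re ≤ a ∧ 0 ≤ (c u).im ∧ (c u).im ≤ b)
    (pS pR pT pL : ℝ) (h₁ : pS < pR) (h₂ : pR < pT) (h₃ : pT < pL) (h₄ : pL < pS + 1)
    (s r t l : ℝ) (hS : c pS = ⟨s, 0⟩) (hR : c pR = ⟨a, r⟩) (hT : c pT = ⟨t, b⟩)
    (hL : c pL = ⟨0, l⟩)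
    (hRT : ∀ u ∈ Set.Icc pR pT,
      (s ≤ (c u).re ∨ a - s ≤ (c u).im ∨ b - s ≤ (c u).im - (c u).re) ∧
      (l ≤ (c u).im ∨ b - l ≤ (c u).re ∨ a - l ≤ (c u).re - (c u).im))
    (hTL : ∀ u ∈ Set.Icc pT pL,
      (r ≤ (c u).im ∨ (c u).re ≤ a - b + r ∨ (c u).re + (c u).im ≤ r) ∧
      ((c u).re ≤ s ∨ s ≤ (c u).im ∨ b + s ≤ (c u).re + (c u).im))
    (hLS : ∀ u ∈ Set.Icc pL (pS + 1),
      ((c u).re ≤ t ∨ (c u).im ≤ b - t ∨ t ≤ (c u).re - (c u).im) ∧
      ((c u).im ≤ r ∨ (c u).re ≤ a - r ∨ r ≤ (c u).im - (c u).re))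
    (hSR : ∀ u ∈ Set.Icc pS pR,
      ((c u).im ≤ l ∨ l ≤ (c u).re ∨ a + l ≤ (c u).re + (c u).im) ∧
      (t ≤ (c u).re ∨ (c u).im ≤ b - a + t ∨ (c u).re + (c u).im ≤ t)) :
    ∃ z w : ℂ, w ≠ 0 ∧ z ∈ Set.range c ∧ z + w ∈ Set.range c ∧
      z + w + Complex.I * w ∈ Set.range c ∧ z + Complex.I * w ∈ Set.range c := by
  by_contra hcon
  have L : H763R2.An.Loop c := ⟨hc, hper⟩
  have J := H765R3.Peg.inj_of L hinj
  have e1 : (c pS).re = s := by rw [hS]
  have e2 : (c pR).im = r := by rw [hR]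
  have e3 : (c pT).re = t := by rw [hT]
  have e4 : (c pL).im = l := by rw [hL]
  subst e1 e2 e3 e4
  exact W675.Peg.four_sides L J hcon a b hbox pS pR pT pL h₁ h₂ h₃ h₄ (by rw [hS]) (by rw [hR])
    (by rw [hT]) (by rw [hL]) hRT hTL hLS hSR

end Pool.Agent.Results.MP_5a3ebe_gt.FourSides
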