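import Pool.Agent.W675.SqQ

/-! Inscribed squares in Jordan curves one part of which is a Lipschitz graph whose direction does not
turn too much, the rest being arbitrary. -/

namespace Pool.Agent.Results.MP_5a3ebe_gt.GraphSide

/-- Let `g` be a Lipschitz function on the line (any constant `L`) that vanishes outside `(0, 1)`, let
`M` be an upper bound of `g`, and suppose that there is `κ > 0` with `1 + a - b + a b ≥ κ` whenever `a`
is the slope of a chord of the graph over `[x, x']` and `b` the slope of a chord over `[y, y']`,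
`0 ≤ x < x' ≤ y < y' ≤ 1`. With `a = tan α`, `b = tan β` the left side is
`√2 cos (β - α + 45°) / (cos α cos β)`, so this says that the direction of the graph, followed from the
left to the right, turns to the left by less than 45 degrees and to the right by less than 135 degrees
between any two of its points. It holds if `g` is Lipschitz with a constant less than `√2 - 1`
(`κ = 1 - 2 L - L²`), and also if `g` is concave and all its directions are in an angle of less than
135 degrees.

Let `w ≠ 0`. We use the coordinates `x, y` with `z = P + (x + i y) w`. Let `G` be the graph of `g` over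
`[0, 1]`; it joins `P` to `Q = P + w`. Let `R = {g x ≤ y, -g y ≤ x ≤ 1 + g (1 - y)}` be the region above
the graph of `g` and between the copies of this graph turned by a right angle about `P` and about `Q`.
(If `g ≥ 0` then `R` contains all points above the graph with `0 ≤ x ≤ 1`.)

Let `C` be a Jordan curve parametrised by `c : ℝ → ℂ` of period `1` with `c 0 = P`, `c u = Q`,
`0 < u < 1`, such that the arc `c ([0, u])` contains `G`. Suppose that the rest of the curve,
followed from `Q` on (parameters from `u` upwards) and followed backwards from `P` (parameters from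
`1` downwards), stays in `R` as long as it has not reached the height `y = 1 + M`. Then `C` contains
the four vertices of a square two adjacent ones of which are on `G`.

No regularity is assumed for the rest of the curve. -/
theorem result (c : ℝ → ℂ) (hc : Continuous c) (hper : ∀ t, c (t + 1) = c t)
    (hinj : Set.InjOn c (Set.Ico 0 1)) (P w : ℂ) (hw : w ≠ 0) (u : ℝ) (hu0 : 0 < u) (hu1 : u < 1)
    (hP : c 0 = P) (hQ : c u = P + w) (g : ℝ → ℝ) (L κ M : ℝ) (hκ : 0 < κ)
    (hg : ∀ x y, |g x - g y| ≤ L * |x - y|) (hg0 : ∀ x ≤ 0, g x = 0) (hg1 : ∀ x, 1 ≤ x → g x = 0)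
    (hturn : ∀ x x' y y' : ℝ, 0 ≤ x → x < x' → x' ≤ y → y < y' → y' ≤ 1 →
      κ ≤ 1 + slope g x x' - slope g y y' + slope g x x' * slope g y y')
    (hM : ∀ x, g x ≤ M)
    (hG : ∀ x ∈ Set.Icc (0:ℝ) 1, P + (x + g x * Complex.I) * w ∈ c '' Set.Icc 0 u)
    (h1 : ∀ t ∈ Set.Icc u 1, (∀ s ∈ Set.Icc u t, ((c s - P) / w).im < 1 + M) →
      g ((c t - P) / w).re ≤ ((c t - P) / w).im ∧ -g ((c t - P) / w).im ≤ ((c t - P) / w).re ∧
        ((c t - P) / w).re ≤ 1 + g (1 - ((c t - P) / w).im))
    (h2 : ∀ t ∈ Set.Icc u 1, (∀ s ∈ Set.Icc t 1, ((c s - P) / w).im < 1 + M) →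
      g ((c t - P) / w).re ≤ ((c t - P) / w).im ∧ -g ((c t - P) / w).im ≤ ((c t - P) / w).re ∧
        ((c t - P) / w).re ≤ 1 + g (1 - ((c t - P) / w).im)) :
    ∃ z v : ℂ, v ≠ 0 ∧ (∃ x ∈ Set.Icc (0:ℝ) 1, z = P + (x + g x * Complex.I) * w) ∧
      (∃ x ∈ Set.Icc (0:ℝ) 1, z + v = P + (x + g x * Complex.I) * w) ∧
      z ∈ Set.range c ∧ z + v ∈ Set.range c ∧
      z + v + Complex.I * v ∈ Set.range c ∧ z + Complex.I * v ∈ Set.range c := by
  have hM0 : 0 ≤ M := by
    have := hM 0
    rwa [hg0 0 le_rfl] at this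
  have hL : 0 ≤ L := by
    have := hg 0 1
    rw [hg0 0 le_rfl, hg1 1 le_rfl] at this
    norm_num at this
    exact this
  have hcc : ∀ t, P + ((c t - P) / w) * w = c t := fun t => by
    rw [div_mul_cancel₀ _ hw]; ring
  have hbc : ∀ x x' y y' : ℝ, 0 ≤ x → x ≤ x' → x' ≤ y → y ≤ y' → y' ≤ 1 →
      min κ 1 * (x' - x) * (y' - y) ≤ (x' - x) * (y' - y) + (g x' - g x) * (g y' - g y)
        + (g x' - g x) * (y' - y) - (x' - x) * (g y' - g y) := by
    intro x x' y y' a1 a2 a3 a4 a5
    rcases eq_or_lt_of_le a2 with h | h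
    · rw [h]; simp
    · rcases eq_or_lt_of_le a4 with h' | h'
      · rw [h']; simp
      · have k := hturn x x' y y' a1 h a3 h' a5
        have p0 : 0 < x' - x := by linarith
        have q0 : 0 < y' - y := by linarith
        have e1 : g x' - g x = slope g x x' * (x' - x) := by
          rw [slope_def_field, div_mul_cancel₀ _ p0.ne']
        have e2 : g y' - g y = slope g y y' * (y' - y) := by
          rw [slope_def_field, div_mul_cancel₀ _ q0.ne']
        rw [e1, e2]
        have k2 : min κ 1 ≤ 1 + slope g x x' - slope g y y' + slope g x x' * slope g y y' :=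
          (min_le_left _ _).trans k
        have k3 := mul_le_mul_of_nonneg_right k2 (mul_pos p0 q0).le
        nlinarith
  have hReg : ∀ z : ℂ, g z.re ≤ z.im ∧ -g z.im ≤ z.re ∧ z.re ≤ 1 + g (1 - z.im) →
      W675.SqG.Reg g z := by
    rintro z ⟨k1, k2, k3⟩
    refine ⟨fun _ _ => k1, fun h => ⟨?_, ?_⟩, fun _ _ => ⟨k2, k3⟩, fun h => ⟨?_, ?_⟩⟩
    · rw [hg0 _ h.le] at k2; linarith
    · rw [hg1 _ (by linarith)] at k3; linarith
    · rw [hg1 _ h] at k2; linarith
    · rw [hg0 _ (by linarith)] at k3; linarith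
  have hc1 : c 1 = c 0 := by
    have := hper 0
    rwa [zero_add] at this
  obtain ⟨x, y, hx, hxy, hy, e1, e2⟩ := W675.SqT.turn_main (f := fun t => (c t - P) / w) hu0 hu1
    (by fun_prop)
    (by
      intro s hs t ht e
      have e' : c s = c t := by
        have := congrArg (fun z => P + z * w) e
        simpa only [hcc] using this
      rcases eq_or_lt_of_le hs.2 with hs1 | hs1 <;> rcases eq_or_lt_of_le ht.2 with ht1 | ht1
      · rw [hs1, ht1]
      · exfalso
        rw [hs1, hc1] at e'
        have := hinj ⟨le_rfl, one_pos⟩ ⟨by linarith [ht.1], ht1⟩ e'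
        linarith [ht.1]
      · exfalso
        rw [ht1, hc1] at e'
        have := hinj ⟨by linarith [hs.1], hs1⟩ ⟨le_rfl, one_pos⟩ e'
        linarith [hs.1]
      · exact hinj ⟨by linarith [hs.1], hs1⟩ ⟨by linarith [ht.1], ht1⟩ e')
    (by simp only [hc1, hP, sub_self, zero_div])
    (by simp only [hQ, add_sub_cancel_left]; exact div_self hw)
    hL (lt_min hκ one_pos) (min_le_right _ _) (fun x _ y _ => hg x y) hbc hM0
    (fun x _ => hM x) (hg0 0 le_rfl) (hg1 1 le_rfl)
    (by
      intro t ht x hx e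
      obtain ⟨t', ht', e'⟩ := hG x hx
      have e2 : c t = c t' := by
        rw [e', ← hcc t, e]
        congr 2
        apply Complex.ext <;> simp
      have := hinj ⟨by linarith [ht.1], ht.2⟩ ⟨ht'.1, by linarith [ht'.2]⟩ e2
      linarith [ht'.2, ht.1])
    (fun t ht h => hReg _ (h1 t ht h)) (fun t ht h => hReg _ (h2 t ht h))
  obtain ⟨s, -, es⟩ := e1
  obtain ⟨r, -, er⟩ := e2
  simp only at es er
  have hs := hcc s
  have hr := hcc r
  rw [es] at hs
  rw [er] at hr
  have hGx := hG x ⟨hx, by linarith⟩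
  have hGy := hG y ⟨by linarith, hy⟩
  have ev : P + (x + g x * Complex.I) * w + ((y - x : ℝ) + (g y - g x : ℝ) * Complex.I) * w =
      P + (y + g y * Complex.I) * w := by
    push_cast; ring
  have hI : Complex.I * Complex.I = -1 := Complex.I_mul_I
  have mk : ∀ a b : ℝ, (⟨a, b⟩ : ℂ) = a + b * Complex.I := fun a b => by
    apply Complex.ext <;> simp
  refine ⟨P + (x + g x * Complex.I) * w, ((y - x : ℝ) + (g y - g x : ℝ) * Complex.I) * w, ?_,
    ⟨x, ⟨hx, by linarith⟩, rfl⟩, ⟨y, ⟨by linarith, hy⟩, ev⟩, Set.image_subset_range _ _ hGx, ?_,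
    ⟨r, ?_⟩, ⟨s, ?_⟩⟩
  · apply mul_ne_zero _ hw
    intro h
    have := congrArg Complex.re h
    simp at this
    linarith
  · rw [ev]
    exact Set.image_subset_range _ _ hGy
  · rw [ev, ← hr, mk]
    push_cast
    linear_combination (-(↑(g y) - ↑(g x)) * w) * hI
  · rw [← hs, mk]
    push_cast
    linear_combination (-(↑(g y) - ↑(g x)) * w) * hI

end Pool.Agent.Results.MP_5a3ebe_gt.GraphSide
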