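import Pool.Agent.W675.PegC

/-! Inscribed squares in Jordan curves without any regularity: an odd number of points of the curve
and the arcs opposite to them. -/

namespace Pool.Agent.Results.MP_5a3ebe_gt.OppositeArcs

/-- `z` lies inside `C`: it is not on `C`, and its component of the complement of `C` is bounded. -/
def Inside (C : Set ℂ) (z : ℂ) : Prop :=
  z ∉ C ∧ Bornology.IsBounded (connectedComponentIn Cᶜ z)

/-- Let `C` be a Jordan curve parametrised by `c : ℝ → ℂ` of period `1`, and let `n = 2 k + 1 ≥ 3`
be odd. Let `P j = c (p j)` be `n` points of `C` in cyclic order (`p` is strictly increasing with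
`p (j + n) = p j + 1`). Suppose that for each `j` and each point `X` of the arc of `C` opposite to
`P j`, that is the arc from `P (j + k)` to `P (j + k + 1)`, neither of the two squares with the side
`P j X` has both its other two vertices inside `C`. Then `C` contains the four vertices of a
square. For `n = 3` these are three points and the arcs between the other two. -/
theorem result (c : ℝ → ℂ) (hc : Continuous c) (hper : ∀ t, c (t + 1) = c t)
    (hinj : Set.InjOn c (Set.Ico 0 1)) (k : ℕ) (hk : 1 ≤ k) (p : ℤ → ℝ) (hp : StrictMono p)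
    (hpn : ∀ j : ℤ, p (j + (2 * k + 1)) = p j + 1)
    (h : ∀ j : ℤ, ∀ t ∈ Set.Icc (p (j + k)) (p (j + k + 1)), ∀ ε : ℂ,
      ε = Complex.I ∨ ε = -Complex.I →
      ¬ (Inside (Set.range c) (c (p j) + ε * (c t - c (p j))) ∧
        Inside (Set.range c) (c t + ε * (c t - c (p j))))) :
    ∃ z w : ℂ, w ≠ 0 ∧ z ∈ Set.range c ∧ z + w ∈ Set.range c ∧
      z + w + Complex.I * w ∈ Set.range c ∧ z + Complex.I * w ∈ Set.range c := by
  by_contra hcon
  have L : H763R2.An.Loop c := ⟨hc, hper⟩
  have J := H765R3.Peg.inj_of L hinj
  refine W675.Peg.opposite L J hcon k hk p hp hpn fun j t ht ε hε => ?_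
  have fr : ∀ z, ¬ Inside (Set.range c) z → H763R2.An.mgc c z ≤ 0 := by
    intro z hz
    apply W675.Peg.mgc_le_of_free L
    unfold Inside at hz
    unfold W675.Peg.Free
    tauto
  rcases not_and_or.1 (h j t ht ε hε) with h1 | h1
  · exact Or.inl (fr _ h1)
  · exact Or.inr (fr _ h1)

end Pool.Agent.Results.MP_5a3ebe_gt.OppositeArcs
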